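import Pool.Graph.R_pool_sql_team_seeded_3997aac3.Q184.PZ.Core

set_option autoImplicit false
set_option linter.unusedSectionVars false

/-!
# Columns whose three exponents are independent rational numbers

A column over three sheets is given by the lifts `A k` of the meridian of the circle around the column
and the lifts `g k` of its longitude. The order automorphisms `A k` and `g k` have the same signs.
-/

namespace Pool.Agent.H34.EP

open Pool.Agent.Y479.LS Pool.Agent.Q184.TP

theorem ne1 : ∀ i : ZMod 3, i ≠ i + 1 := by decide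
theorem ne2 : ∀ i : ZMod 3, i ≠ i + 2 := by decide

variable {X : Type*} [LinearOrder X]

/-- `A` does not move down a point which `g` does not move down, and the same with up for down. -/
structure Follows (g A : Aut X) : Prop where
  up : ∀ x, x ≤ g x → x ≤ A x
  down : ∀ x, g x ≤ x → A x ≤ x

theorem Follows.fix {g A : Aut X} (h : Follows g A) {x : X} (e : g x = x) : A x = x :=
  le_antisymm (h.down x e.le) (h.up x e.ge)

theorem Follows.dual {g A : Aut X} (h : Follows g A) : Follows (Aut.dual g) (Aut.dual A) :=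
  ⟨fun x hx => h.down (OrderDual.ofDual x) hx, fun x hx => h.up (OrderDual.ofDual x) hx⟩

/-- a relation `A ^ q = g ^ p` with `q ≥ 1` -/
theorem follows_of_pow {g A : Aut X} {p q : ℕ} (h : A ^ q = g ^ p) (hq : 1 ≤ q) :
    Follows g A := by
  obtain ⟨m, rfl⟩ : ∃ m, q = m + 1 := ⟨q - 1, by omega⟩
  constructor
  · intro x hx
    by_contra hc
    push Not at hc
    have h1 : x ≤ (A ^ (m + 1)) x := by rw [h]; exact le_pow_iff _ hx _
    have h2 : (A ^ m) (A x) ≤ A x := pow_le_iff _ ((Aut.le_iff _).mpr hc.le) m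
    rw [pow_succ, Aut.mul_apply] at h1
    exact absurd (h1.trans h2) (not_le.mpr hc)
  · intro x hx
    by_contra hc
    push Not at hc
    have h1 : (A ^ (m + 1)) x ≤ x := by rw [h]; exact pow_le_iff _ hx _
    have h2 : A x ≤ (A ^ m) (A x) := le_pow_iff _ ((Aut.le_iff _).mpr hc.le) m
    rw [pow_succ, Aut.mul_apply] at h1
    exact absurd (h2.trans h1) (not_le.mpr hc)

/-- the loop around the left side of a column -/
def edge {G : Type*} [Group G] (α A : ZMod 3 → G) (k : ZMod 3) : G :=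
  A k * ((α (k + 2))⁻¹ * A (k + 2) * α (k + 2))⁻¹

/-- the relation of the slopes of a column: for each sheet the automorphisms have the same signs, or one
of them is trivial; the meridian is trivial in at most one sheet -/
structure Slopes (g A : ZMod 3 → Aut X) : Prop where
  fwd : ∀ k, Follows (g k) (A k) ∨ g k = 1
  bwd : ∀ k, Follows (A k) (g k) ∨ A k = 1
  one : ∀ j k, j ≠ k → Follows (A j) (g j) ∨ Follows (A k) (g k)

theorem Slopes.dual {g A : ZMod 3 → Aut X} (h : Slopes g A) : Slopes (dualF g) (dualF A) := by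
  refine ⟨fun k => ?_, fun k => ?_, fun j k hjk => ?_⟩
  · rcases h.fwd k with h1 | h1
    · exact Or.inl h1.dual
    · exact Or.inr (by show Aut.dual (g k) = 1; rw [h1, map_one])
  · rcases h.bwd k with h1 | h1
    · exact Or.inl h1.dual
    · exact Or.inr (by show Aut.dual (A k) = 1; rw [h1, map_one])
  · rcases h.one j k hjk with h1 | h1
    · exact Or.inl h1.dual
    · exact Or.inr h1.dual

variable {α β g A : ZMod 3 → Aut X}

theorem edge_apply (k : ZMod 3) (x : X) :
    edge α A k x = A k ((α (k + 2))⁻¹ ((A (k + 2))⁻¹ (α (k + 2) x))) := by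
  unfold edge
  rw [mul_inv_rev, mul_inv_rev, inv_inv]
  rfl

theorem edge_dual : dualF (edge α A) = edge (dualF α) (dualF A) := by
  funext k
  show Aut.dual (A k * ((α (k + 2))⁻¹ * A (k + 2) * α (k + 2))⁻¹) = _
  rw [map_mul, map_inv, map_mul, map_mul, map_inv]
  rfl

/-- the lower loops have product one -/
theorem low_cyc (hα : Cyc α) : Cyc (low (edge α A) α) := by
  intro k
  have h1 : α (k + 2) * (α k * α (k + 1)) = 1 := by
    have := hα (k + 2)
    rw [i21, i22] at this
    rw [← mul_assoc]; exact this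
  show (A k * ((α (k + 2))⁻¹ * A (k + 2) * α (k + 2))⁻¹)⁻¹ * α k *
    ((A (k + 1) * ((α (k + 1 + 2))⁻¹ * A (k + 1 + 2) * α (k + 1 + 2))⁻¹)⁻¹ * α (k + 1)) *
    ((A (k + 2) * ((α (k + 2 + 2))⁻¹ * A (k + 2 + 2) * α (k + 2 + 2))⁻¹)⁻¹ * α (k + 2)) = 1
  rw [i12, i22]
  generalize α k = a at h1 ⊢
  generalize α (k + 1) = b at h1 ⊢
  generalize α (k + 2) = c at h1 ⊢
  generalize A k = u
  generalize A (k + 1) = v
  generalize A (k + 2) = w
  calc (u * (c⁻¹ * w * c)⁻¹)⁻¹ * a * ((v * (a⁻¹ * u * a)⁻¹)⁻¹ * b) * ((w * (b⁻¹ * v * b)⁻¹)⁻¹ * c)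
      = c⁻¹ * w * (c * (a * b)) * w⁻¹ * c := by group
    _ = 1 := by rw [h1]; group

theorem at_beta (hg : ∀ k, β k = g k * α k) (k : ZMod 3) (y : X) : β k y = g k (α k y) := by
  rw [hg]; rfl

/-- the main comparison -/
theorem gen (hα : Cyc α) (hβ : Cyc β) (hg : ∀ k, β k = g k * α k)
    (i : ZMod 3) (p r : X) (h1 : edge α A i r ≤ r) (h2 : p ≤ edge α A (i + 1) p)
    (h3 : α i p ≤ r) (h4 : r ≤ β i p) (f0 : Follows (g i) (A i))
    (f2 : Follows (A (i + 2)) (g (i + 2))) (f1 : Follows (A (i + 1)) (g (i + 1))) :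
    α i p = r ∧ β i p = r ∧ g (i + 1) p = p ∧ g (i + 2) (α (i + 2) r) = α (i + 2) r := by
  have hb := at_beta hg
  have h4' : r ≤ g i (α i p) := by rw [← hb]; exact h4
  rw [edge_apply] at h1 h2
  rw [i12] at h2
  have hx : α i p ≤ g i (α i p) := h3.trans h4'
  have hr : r ≤ g i r := h4'.trans ((Aut.le_iff _).mpr h3)
  have ar : r ≤ A i r := f0.up _ hr
  have ax : α i p ≤ A i (α i p) := f0.up _ hx
  have c2 : α (i + 2) r ≤ A (i + 2) (α (i + 2) r) := by
    have k1 : A i ((α (i + 2))⁻¹ ((A (i + 2))⁻¹ (α (i + 2) r))) ≤ A i r := h1.trans ar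
    rw [Aut.le_iff] at k1
    rw [inv_le_iff, inv_le_iff] at k1
    exact k1
  have c1 : p ≤ A (i + 1) p := by
    refine h2.trans ((Aut.le_iff _).mpr ?_)
    rw [inv_le_iff, inv_le_iff]
    exact ax
  have d2 := f2.up _ c2
  have d1 := f1.up _ c1
  have hcyc : β i (β (i + 1) (β (i + 2) r)) = r := hβ.app i r
  have hαr : α (i + 1) (α (i + 2) r) = (α i)⁻¹ r := by
    rw [← Aut.inj (α i), Aut.self_inv, hα.app i r]
  have e1 : p ≤ (α i)⁻¹ r := by rw [le_inv_iff]; exact h3
  have s1 : g (i + 1) p ≤ g (i + 1) ((α i)⁻¹ r) := (Aut.le_iff _).mpr e1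
  have s2 : g (i + 1) ((α i)⁻¹ r) ≤ β (i + 1) (β (i + 2) r) := by
    rw [← hαr, ← hb, Aut.le_iff, hb]
    exact d2
  have s3 : β i (β (i + 1) (β (i + 2) r)) ≤ β i p := by rw [hcyc]; exact h4
  rw [Aut.le_iff] at s3
  have t1 : g (i + 1) p = p := le_antisymm ((s1.trans s2).trans s3) d1
  have t2 : g (i + 1) ((α i)⁻¹ r) = p := le_antisymm (s2.trans s3) (t1 ▸ s1)
  have t3 : (α i)⁻¹ r = p := by rw [← Aut.inj (g (i + 1)), t2, t1]
  have t4 : α i p = r := by rw [← t3, Aut.self_inv]
  have t5 : β (i + 1) (β (i + 2) r) = p := le_antisymm s3 (t2 ▸ s2)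
  have t6 : β i p = r := by rw [← t5]; exact hcyc
  have t7 : β (i + 2) r = α (i + 2) r := by
    rw [← Aut.inj (β (i + 1)), t5, hb (i + 1), hαr, t2]
  refine ⟨t4, t6, t1, ?_⟩
  rw [← hb]
  exact t7

/-- all slopes positive -/
theorem col_strict (hα : Cyc α) (hβ : Cyc β) (hg : ∀ k, β k = g k * α k)
    (F1 : ∀ k, Follows (g k) (A k)) (F2 : ∀ k, Follows (A k) (g k)) : P1 (edge α A) α β := by
  intro i p r h1 h2 h3 h4
  obtain ⟨e1, e2, e3, e4⟩ := gen hα hβ hg i p r h1 h2 h3 h4 (F1 _) (F2 _) (F2 _)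
  have q1 : g i r = r := by
    have := at_beta hg i p
    rw [e2, e1] at this
    exact this.symm
  have q2 : A i r = r := (F1 i).fix q1
  have q3 : A (i + 2) (α (i + 2) r) = α (i + 2) r := (F1 _).fix e4
  have q4 : A (i + 1) p = p := (F1 _).fix e3
  refine ⟨e1, e2, ?_, ?_⟩
  · rw [edge_apply]
    have : (A (i + 2))⁻¹ (α (i + 2) r) = α (i + 2) r := by
      rw [← Aut.inj (A (i + 2)), Aut.self_inv, q3]
    rw [this, Aut.inv_self, q2]
  · rw [edge_apply, i12]
    have : (A i)⁻¹ (α i p) = α i p := by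
      rw [← Aut.inj (A i), Aut.self_inv, e1, q2]
    rw [this, Aut.inv_self, q4]

/-- slopes in the closed interval, at most one of the three is zero -/
theorem col_weak (hα : Cyc α) (hβ : Cyc β) (hg : ∀ k, β k = g k * α k) (h : Slopes g A) :
    W1 (edge α A) α β := by
  intro i p r h1 h2 h3 h4
  have hb := at_beta hg
  have h4' : r ≤ g i (α i p) := by rw [← hb]; exact h4
  have hx : α i p ≤ g i (α i p) := h3.trans h4'
  have hr : r ≤ g i r := h4'.trans ((Aut.le_iff _).mpr h3)
  have triv : g i r = r → α i p = r ∧ β i p = r := by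
    intro e
    have e1 : g i (α i p) = r := by
      refine le_antisymm ?_ h4'
      conv_rhs => rw [← e]
      exact (Aut.le_iff _).mpr h3
    have e2 : α i p = r := by rw [← Aut.inj (g i), e1, e]
    exact ⟨e2, by rw [hb]; exact e1⟩
  have triv' : g i (α i p) = α i p → α i p = r ∧ β i p = r := by
    intro e
    have e1 : α i p = r := le_antisymm h3 (h4'.trans e.le)
    exact ⟨e1, by rw [hb, e, e1]⟩
  rcases h.fwd i with f0 | f0
  · have ar : r ≤ A i r := f0.up _ hr
    have ax : α i p ≤ A i (α i p) := f0.up _ hx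
    have n1 := ne1 i
    have n2 := ne2 i
    by_cases f2 : Follows (A (i + 2)) (g (i + 2))
    · by_cases f1 : Follows (A (i + 1)) (g (i + 1))
      · have := gen hα hβ hg i p r h1 h2 h3 h4 f0 f2 f1
        exact ⟨this.1, this.2.1⟩
      · have z := (h.bwd (i + 1)).resolve_left f1
        have F := (h.one i (i + 1) n1).resolve_right f1
        rw [edge_apply, i12, z, Aut.one_apply, le_inv_iff, le_inv_iff] at h2
        exact triv' (F.fix (le_antisymm h2 ax))
    · have z := (h.bwd (i + 2)).resolve_left f2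
      have F := (h.one i (i + 2) n2).resolve_right f2
      rw [edge_apply, z, inv_one, Aut.one_apply, Aut.inv_self] at h1
      exact triv (F.fix (le_antisymm h1 ar))
  · exact triv' (by rw [f0, Aut.one_apply])

theorem col_P (hα : Cyc α) (hβ : Cyc β) (hg : ∀ k, β k = g k * α k)
    (F1 : ∀ k, Follows (g k) (A k)) (F2 : ∀ k, Follows (A k) (g k)) : P (edge α A) α β := by
  refine ⟨col_strict hα hβ hg F1 F2, ?_⟩
  have h := col_strict (α := dualF α) (β := dualF β) (g := dualF g) (A := dualF A) hα.dual hβ.dual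
    (fun k => by
      show Aut.dual (β k) = Aut.dual (g k) * Aut.dual (α k)
      rw [hg, map_mul]) (fun k => (F1 k).dual) (fun k => (F2 k).dual)
  rw [← edge_dual] at h
  exact P1.undual h

theorem col_W (hα : Cyc α) (hβ : Cyc β) (hg : ∀ k, β k = g k * α k) (hs : Slopes g A) :
    W (edge α A) α β := by
  refine ⟨col_weak hα hβ hg hs, ?_⟩
  have h := col_weak (α := dualF α) (β := dualF β) (g := dualF g) (A := dualF A) hα.dual hβ.dual
    (fun k => by
      show Aut.dual (β k) = Aut.dual (g k) * Aut.dual (α k)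
      rw [hg, map_mul]) hs.dual
  rw [← edge_dual] at h
  exact h

/-- the surgeries on the branch set -/
theorem branch_W1 {κ D : ZMod 3 → Aut X} (hD : ∀ k, Follows (κ k) (D k))
    (hb : ∀ k, β k = D k * α k * (D (k + 1))⁻¹) : W1 κ α β := by
  intro i p r h1 h2 h3 h4
  have e : β i p = D i (α i ((D (i + 1))⁻¹ p)) := by rw [hb]; rfl
  rw [e] at h4 ⊢
  have d1 : (D (i + 1))⁻¹ p ≤ p := by rw [inv_le_iff]; exact (hD _).up _ h2
  have d2 : D i r ≤ r := (hD _).down _ h1
  have s1 : α i ((D (i + 1))⁻¹ p) ≤ α i p := (Aut.le_iff _).mpr d1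
  have s2 : D i (α i ((D (i + 1))⁻¹ p)) ≤ D i r := (Aut.le_iff _).mpr (s1.trans h3)
  have t1 : D i (α i ((D (i + 1))⁻¹ p)) = r := le_antisymm (s2.trans d2) h4
  have t2 : D i r = r := le_antisymm d2 (h4.trans s2)
  refine ⟨?_, t1⟩
  refine le_antisymm h3 ?_
  rw [← Aut.le_iff (D i), t2, ← t1]
  exact (Aut.le_iff _).mpr s1

theorem branch_W {κ D : ZMod 3 → Aut X} (hD : ∀ k, Follows (κ k) (D k))
    (hb : ∀ k, β k = D k * α k * (D (k + 1))⁻¹) : W κ α β := by
  refine ⟨branch_W1 hD hb, ?_⟩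
  have h := branch_W1 (α := dualF α) (β := dualF β) (κ := dualF κ) (D := dualF D)
    (fun k => (hD k).dual) (fun k => by
      show Aut.dual (β k) = Aut.dual (D k) * Aut.dual (α k) * (Aut.dual (D (k + 1)))⁻¹
      rw [hb, map_mul, map_mul, map_inv])
  exact h

/-- **The closed chain of columns.** -/
theorem core (n : ℕ) (α A : ℕ → ZMod 3 → Aut X) (κ D : ZMod 3 → Aut X)
    (h0 : α 0 = 1) (hc : ∀ i, Cyc (α i)) (hκ : ∀ i < n, edge (α i) (A i) = κ)
    (hs : ∀ i < n, Slopes (fun k => α (i + 1) k * (α i k)⁻¹) (A i))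
    (i₀ : ℕ) (hi₀ : i₀ < n) (F1 : ∀ k, Follows (α (i₀ + 1) k * (α i₀ k)⁻¹) (A i₀ k))
    (F2 : ∀ k, Follows (A i₀ k) (α (i₀ + 1) k * (α i₀ k)⁻¹))
    (hD : ∀ k, Follows (κ k) (D k)) (hN : ∀ k, D k * α n k * (D (k + 1))⁻¹ = 1) :
    (∀ k, κ k = 1) ∧ ∀ i ≤ n, α i = 1 := by
  have hw : ∀ i < n, W κ (α i) (α (i + 1)) := by
    intro i hi
    rw [← hκ i hi]
    exact col_W (hc i) (hc (i + 1)) (fun k => by group) (hs i hi)
  have hp : P κ (α i₀) (α (i₀ + 1)) := by
    rw [← hκ i₀ hi₀]
    exact col_P (hc i₀) (hc (i₀ + 1)) (fun k => by group) F1 F2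
  have low : ∀ j ≤ n, W κ (α 0) (α j) := by
    intro j
    induction j with
    | zero => exact fun _ => W.refl _ _
    | succ j ih => exact fun hj => (ih (by omega)).trans (hw j (by omega))
  have high : ∀ j, i₀ + 1 ≤ j → j ≤ n → P κ (α i₀) (α j) := by
    intro j hj
    induction j, hj using Nat.le_induction with
    | base => exact fun _ => hp
    | succ j hj ih => exact fun h => (ih (by omega)).trans_weak (hw j (by omega))
  have hcl : W κ (α n) (α 0) := branch_W hD fun k => by rw [hN, h0]; rfl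
  have h1 : P κ (α i₀) (α i₀) :=
    ((high n hi₀ le_rfl).trans_weak hcl).trans_weak (low i₀ hi₀.le)
  have hlow : Cyc (Pool.Agent.Q184.TP.low κ (α i₀)) := by rw [← hκ i₀ hi₀]; exact low_cyc (hc i₀)
  have hk : ∀ k, κ k = 1 := fun k => Aut.ext' fun p => close h1 (hc i₀) hlow k p
  refine ⟨hk, ?_⟩
  have fx : ∀ (j : ZMod 3) (x : X), κ j x = x := fun j x => by rw [hk j]; rfl
  intro i hi
  induction i with
  | zero => exact h0
  | succ i ih =>
    rw [← ih (by omega)]
    funext k
    refine Aut.ext' fun p => ?_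
    rcases le_total (α i k p) (α (i + 1) k p) with h | h
    · exact ((hw i (by omega)).1 k p (α (i + 1) k p) (fx _ _).le (fx _ _).ge h le_rfl).1.symm
    · exact ((hw i (by omega)).2 k p (α (i + 1) k p) (fx _ _).ge (fx _ _).le h le_rfl).1.symm

end Pool.Agent.H34.EP
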