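import Pool.Agent.H34.EP.Core
import Pool.Graph.R_pool_sql_team_seeded_3997aac3.Q184.PZ.Ker

set_option autoImplicit false
set_option linter.unusedSectionVars false

/-!
# From the group of the link to order automorphisms
-/

namespace Pool.Agent.H34.EP

open Pool.Agent.Y479.LS Pool.Agent.Q184.TP Pool.Agent.Q184.PZ

variable {G : Type*} [Group G] {n : ℕ} (d : G →* Multiplicative (ZMod n))
variable {X : Type*} [LinearOrder X] (ψ : d.ker →* Aut X)

theorem pow_one_imp {A : Aut X} {m : ℕ} (hm : 0 < m) (h : A ^ m = 1) : A = 1 := by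
  have F : Follows 1 A := follows_of_pow (g := 1) (p := 1) (q := m) (by rw [h, one_pow]) hm
  exact Aut.ext' fun x => F.fix rfl

/-- **The transfer.** -/
theorem hom_trivial (hn : 0 < n) (a c : ZMod 3 → G)
    (da : ∀ k, d (a k) = Multiplicative.ofAdd 1) (dc : ∀ k, c k ∈ d.ker)
    (dr : ∀ k, a k * (a (k + 1))⁻¹ ∈ d.ker) (dn : ∀ k, a k ^ n ∈ d.ker)
    (hlon : ∀ k, a k * (c k * (c (k + 2))⁻¹) = c k * (c (k + 2))⁻¹ * a k)
    (hgen : ∀ M : Subgroup G, (∀ k, a k ∈ M) → (∀ k, c k ∈ M) → M = ⊤)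
    (p q : ZMod 3 → ℕ → ℕ)
    (hfill : ∀ k, ∀ i < n, ψ (MulAut.conjNormal (a 0 ^ i) (⟨c k, dc k⟩ : d.ker)) ^ q k i =
      ψ (MulAut.conjNormal (a 0 ^ i) (⟨a k * (a (k + 1))⁻¹, dr k⟩ : d.ker)) ^ p k i)
    (h1 : ∀ k, ∀ i < n, 0 < p k i ∨ 0 < q k i)
    (h2 : ∀ i < n, ∀ j k, j ≠ k → 0 < p j i ∨ 0 < p k i)
    (h3 : ∀ i < n, ∃ k, 0 < q k i)
    (i₀ : ℕ) (hi₀ : i₀ < n) (h4 : ∀ k, 0 < p k i₀ ∧ 0 < q k i₀)
    (u v : ZMod 3 → ℕ) (hv : ∀ k, 0 < v k)
    (hbr : ∀ k, ψ (⟨a k ^ n, dn k⟩ : d.ker) ^ v k *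
      ψ ((⟨c k, dc k⟩ : d.ker) * (⟨c (k + 2), dc (k + 2)⟩ : d.ker)⁻¹) ^ u k = 1)
    (x : d.ker) : ψ x = 1 := by
  have dA : ∀ (i : ℕ) (k j : ZMod 3), a k ^ i * (a j ^ i)⁻¹ ∈ d.ker := by
    intro i k j
    show d _ = 1
    rw [map_mul, map_inv, map_pow, map_pow, da, da, mul_inv_cancel]
  let T : ℕ → ZMod 3 → ZMod 3 → d.ker := fun i k j => ⟨a k ^ i * (a j ^ i)⁻¹, dA i k j⟩
  let C : ZMod 3 → d.ker := fun k => ⟨c k, dc k⟩
  let R : ZMod 3 → d.ker := fun k => ⟨a k * (a (k + 1))⁻¹, dr k⟩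
  let S : ZMod 3 → d.ker := fun k => ⟨a k ^ n, dn k⟩
  have hT : ∀ i k j, ((T i k j : d.ker) : G) = a k ^ i * (a j ^ i)⁻¹ := fun _ _ _ => rfl
  have hC : ∀ k, ((C k : d.ker) : G) = c k := fun _ => rfl
  have hR : ∀ k, ((R k : d.ker) : G) = a k * (a (k + 1))⁻¹ := fun _ => rfl
  have hS : ∀ k, ((S k : d.ker) : G) = a k ^ n := fun _ => rfl
  -- the conjugates by powers of `a k`
  let α : ℕ → ZMod 3 → Aut X := fun i k => ψ (T i k (k + 1))
  let A : ℕ → ZMod 3 → Aut X := fun i k => ψ (MulAut.conjNormal (a k ^ i) (C k))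
  let κ : ZMod 3 → Aut X := fun k => ψ (C k * (C (k + 2))⁻¹)
  let D : ZMod 3 → Aut X := fun k => (ψ (S k))⁻¹
  have h0 : α 0 = 1 := by
    funext k
    show ψ (T 0 k (k + 1)) = 1
    have : T 0 k (k + 1) = 1 := Subtype.ext (by rw [hT]; simp)
    rw [this, map_one]
  have hc : ∀ i, Cyc (α i) := by
    intro i k
    show ψ (T i k (k + 1)) * ψ (T i (k + 1) (k + 1 + 1)) * ψ (T i (k + 2) (k + 2 + 1)) = 1
    rw [i11, i21, ← map_mul, ← map_mul]
    have : T i k (k + 1) * T i (k + 1) (k + 2) * T i (k + 2) k = 1 := Subtype.ext (by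
      rw [Subgroup.coe_mul, Subgroup.coe_mul, hT, hT, hT]
      simp)
    rw [this, map_one]
  have hκ : ∀ i < n, edge (α i) (A i) = κ := by
    intro i _
    funext k
    show ψ (MulAut.conjNormal (a k ^ i) (C k)) * ((ψ (T i (k + 2) (k + 2 + 1)))⁻¹ *
      ψ (MulAut.conjNormal (a (k + 2) ^ i) (C (k + 2))) * ψ (T i (k + 2) (k + 2 + 1)))⁻¹ =
      ψ (C k * (C (k + 2))⁻¹)
    rw [i21, ← map_inv, ← map_mul, ← map_mul, ← map_inv, ← map_mul]
    congr 1
    refine Subtype.ext ?_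
    rw [Subgroup.coe_mul, Subgroup.coe_mul, Subgroup.coe_inv, Subgroup.coe_inv, Subgroup.coe_mul,
      Subgroup.coe_mul, Subgroup.coe_inv, conj_val, conj_val, hT, hC, hC]
    have e : Commute (a k) (c k * (c (k + 2))⁻¹) := hlon k
    have e2 := (e.pow_left i).eq
    calc a k ^ i * c k * (a k ^ i)⁻¹ * ((a (k + 2) ^ i * (a k ^ i)⁻¹)⁻¹ *
          (a (k + 2) ^ i * c (k + 2) * (a (k + 2) ^ i)⁻¹) * (a (k + 2) ^ i * (a k ^ i)⁻¹))⁻¹
        = a k ^ i * (c k * (c (k + 2))⁻¹) * (a k ^ i)⁻¹ := by group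
      _ = c k * (c (k + 2))⁻¹ := by rw [e2]; group
  have hg : ∀ i k, α (i + 1) k * (α i k)⁻¹ = ψ (MulAut.conjNormal (a k ^ i) (R k)) := by
    intro i k
    show ψ (T (i + 1) k (k + 1)) * (ψ (T i k (k + 1)))⁻¹ = _
    rw [← map_inv, ← map_mul]
    congr 1
    refine Subtype.ext ?_
    rw [Subgroup.coe_mul, Subgroup.coe_inv, conj_val, hT, hT, hR, pow_succ, pow_succ]
    group
  -- the surgery relations for the conjugates by powers of `a k`
  have hf : ∀ k, ∀ i < n, A i k ^ q k i = (α (i + 1) k * (α i k)⁻¹) ^ p k i := by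
    intro k i hi
    have e1 : ∀ y : d.ker, MulAut.conjNormal (a k ^ i) y =
        T i k 0 * MulAut.conjNormal (a 0 ^ i) y * (T i k 0)⁻¹ := by
      intro y
      refine Subtype.ext ?_
      rw [Subgroup.coe_mul, Subgroup.coe_mul, Subgroup.coe_inv, conj_val, conj_val, hT]
      group
    have e2 := hfill k i hi
    rw [hg]
    show ψ (MulAut.conjNormal (a k ^ i) (C k)) ^ q k i = _
    rw [e1, e1, map_mul, map_mul, map_mul, map_mul, map_inv, conj_pow, conj_pow]
    change ψ (MulAut.conjNormal (a 0 ^ i) (C k)) ^ q k i =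
      ψ (MulAut.conjNormal (a 0 ^ i) (R k)) ^ p k i at e2
    rw [e2]
  have F1 : ∀ k, ∀ i < n, 0 < q k i → Follows (α (i + 1) k * (α i k)⁻¹) (A i k) :=
    fun k i hi hq => follows_of_pow (hf k i hi) hq
  have F2 : ∀ k, ∀ i < n, 0 < p k i → Follows (A i k) (α (i + 1) k * (α i k)⁻¹) :=
    fun k i hi hp => follows_of_pow (hf k i hi).symm hp
  have hs : ∀ i < n, Slopes (fun k => α (i + 1) k * (α i k)⁻¹) (A i) := by
    intro i hi
    refine ⟨fun k => ?_, fun k => ?_, fun j k hjk => ?_⟩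
    · rcases Nat.eq_zero_or_pos (q k i) with hq | hq
      · right
        have e := hf k i hi
        rw [hq, pow_zero] at e
        exact pow_one_imp ((h1 k i hi).resolve_right (by omega)) e.symm
      · exact Or.inl (F1 k i hi hq)
    · rcases Nat.eq_zero_or_pos (p k i) with hp | hp
      · right
        have e := hf k i hi
        rw [hp, pow_zero] at e
        exact pow_one_imp ((h1 k i hi).resolve_left (by omega)) e
      · exact Or.inl (F2 k i hi hp)
    · rcases h2 i hi j k hjk with h | h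
      · exact Or.inl (F2 j i hi h)
      · exact Or.inr (F2 k i hi h)
  have hbr' : ∀ k, D k ^ v k = κ k ^ u k := by
    intro k
    have e : ψ (S k) ^ v k * κ k ^ u k = 1 := hbr k
    show (ψ (S k))⁻¹ ^ v k = _
    rw [inv_pow]
    exact (eq_inv_of_mul_eq_one_right e).symm
  have hD : ∀ k, Follows (κ k) (D k) := fun k => follows_of_pow (hbr' k) (hv k)
  have hN : ∀ k, D k * α n k * (D (k + 1))⁻¹ = 1 := by
    intro k
    show (ψ (S k))⁻¹ * ψ (T n k (k + 1)) * ((ψ (S (k + 1)))⁻¹)⁻¹ = 1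
    rw [inv_inv, ← map_inv, ← map_mul, ← map_mul]
    have : (S k)⁻¹ * T n k (k + 1) * S (k + 1) = 1 := Subtype.ext (by
      rw [Subgroup.coe_mul, Subgroup.coe_mul, Subgroup.coe_inv, hT, hS, hS]
      simp)
    rw [this, map_one]
  obtain ⟨k1, k2⟩ := core n α A κ D h0 hc hκ hs i₀ hi₀ (fun k => F1 k i₀ hi₀ (h4 k).2)
    (fun k => F2 k i₀ hi₀ (h4 k).1) hD hN
  -- the meridians of the circles
  have k3 : ∀ i < n, ∀ k, A i k = 1 := by
    intro i hi
    have g1 : ∀ k, α (i + 1) k * (α i k)⁻¹ = 1 := by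
      intro k
      rw [k2 (i + 1) (by omega), k2 i (by omega)]
      simp
    have s1 : ∀ k, A i k = A i (k + 2) := by
      intro k
      have e := congrFun (hκ i hi) k
      rw [k1 k, k2 i (by omega)] at e
      have e' : A i k * ((1 : Aut X)⁻¹ * A i (k + 2) * 1)⁻¹ = 1 := e
      simpa [mul_inv_eq_one] using e'
    obtain ⟨j, hj⟩ := h3 i hi
    have z : A i j = 1 := by
      have e := hf j i hi
      rw [g1, one_pow] at e
      exact pow_one_imp hj e
    have hk : ∀ k, A i k = A i 0 := by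
      intro k
      have hk : k = 0 ∨ k = 1 ∨ k = 2 := by revert k; decide
      rcases hk with rfl | rfl | rfl
      · rfl
      · have := s1 1
        rw [show (1 : ZMod 3) + 2 = 0 from rfl] at this
        exact this
      · have h1 := s1 2
        have h2 := s1 1
        rw [show (2 : ZMod 3) + 2 = 1 from rfl] at h1
        rw [show (1 : ZMod 3) + 2 = 0 from rfl] at h2
        rw [h1, h2]
    intro k
    rw [hk k, ← hk j, z]
  -- the powers `a k ^ n`
  have k4 : ∀ k, ψ (S k) = 1 := by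
    intro k
    have e := hbr' k
    rw [k1 k, one_pow] at e
    have := pow_one_imp (hv k) e
    change (ψ (S k))⁻¹ = 1 at this
    exact inv_eq_one.mp this
  have k5 : ∀ i ≤ n, ∀ k, ψ (T i k 0) = 1 := by
    intro i hi k
    have k3 : ∀ k, ψ (T i k (k + 1)) = 1 := fun k => congrFun (k2 i hi) k
    have hk : k = 0 ∨ k = 1 ∨ k = 2 := by revert k; decide
    rcases hk with rfl | rfl | rfl
    · have : T i 0 0 = 1 := Subtype.ext (by rw [hT]; simp)
      rw [this, map_one]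
    · have : T i 1 0 = (T i 0 (0 + 1))⁻¹ := Subtype.ext (by
        rw [Subgroup.coe_inv, hT, hT, zero_add]; group)
      rw [this, map_inv, k3, inv_one]
    · exact k3 2
  -- reduction of the exponent modulo `n`
  have red : ∀ y : d.ker, (∀ i < n, ψ (MulAut.conjNormal (a 0 ^ i) y) = 1) → y ∈ triv d ψ (a 0) := by
    intro y hy z
    have hn' : (0 : ℤ) < n := by exact_mod_cast hn
    obtain ⟨i, hi⟩ : ∃ i : ℕ, (i : ℤ) = z % n := ⟨(z % n).toNat,
      Int.toNat_of_nonneg (Int.emod_nonneg _ hn'.ne')⟩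
    have hin : i < n := by
      have := Int.emod_lt_of_pos z hn'
      omega
    have e : MulAut.conjNormal (a 0 ^ z) y =
        S 0 ^ (z / n) * MulAut.conjNormal (a 0 ^ i) y * (S 0 ^ (z / n))⁻¹ := by
      refine Subtype.ext ?_
      rw [conj_val, Subgroup.coe_mul, Subgroup.coe_mul, Subgroup.coe_inv, Subgroup.coe_zpow,
        conj_val, hS]
      have e1 : a 0 ^ z = (a 0 ^ n) ^ (z / n) * a 0 ^ i := by
        rw [← zpow_natCast (a 0) n, ← zpow_mul, ← zpow_natCast (a 0) i, ← zpow_add, hi,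
          Int.mul_ediv_add_emod]
      rw [e1, mul_inv_rev]
      simp only [mul_assoc]
    rw [e, map_mul, map_mul, map_inv, map_zpow, k4, hy i hin]
    simp
  have hQ1 : ∀ k, T 1 k 0 ∈ triv d ψ (a 0) := by
    intro k
    apply red
    intro i hi
    have e : MulAut.conjNormal (a 0 ^ i) (T 1 k 0) = (T i k 0)⁻¹ * T (i + 1) k 0 := by
      refine Subtype.ext ?_
      rw [conj_val, Subgroup.coe_mul, Subgroup.coe_inv, hT, hT, hT, pow_succ, pow_succ]
      group
    rw [e, map_mul, map_inv, k5 i (by omega), k5 (i + 1) (by omega)]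
    simp
  have hQ2 : ∀ k, C k ∈ triv d ψ (a 0) := by
    intro k
    apply red
    intro i hi
    have e : MulAut.conjNormal (a 0 ^ i) (C k) =
        (T i k 0)⁻¹ * MulAut.conjNormal (a k ^ i) (C k) * T i k 0 := by
      refine Subtype.ext ?_
      rw [conj_val, Subgroup.coe_mul, Subgroup.coe_mul, Subgroup.coe_inv, conj_val, hT]
      group
    have e2 : ψ (MulAut.conjNormal (a k ^ i) (C k)) = 1 := k3 i hi k
    rw [e, map_mul, map_mul, map_inv, k5 i (by omega), e2]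
    simp
  have hM : trivS d ψ (a 0) = ⊤ := by
    refine hgen _ (fun k => ⟨T 1 k 0, hQ1 k, 1, ?_⟩) (fun k => ⟨C k, hQ2 k, 0, ?_⟩)
    · show a k = a k ^ 1 * (a 0 ^ 1)⁻¹ * a 0 ^ (1 : ℤ)
      group
    · show c k = c k * a 0 ^ (0 : ℤ)
      group
  have hg : (x : G) ∈ trivS d ψ (a 0) := by rw [hM]; trivial
  obtain ⟨y, hy, m, hxm⟩ := hg
  have dy : d (y : G) = 1 := y.2
  have dx : d (x : G) = 1 := x.2
  rw [hxm, map_mul, dy, one_mul, map_zpow, da, ← ofAdd_zsmul] at dx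
  have hm : ((m : ℤ) : ZMod n) = 0 := by
    have : m • (1 : ZMod n) = 0 := Multiplicative.ofAdd.injective dx
    simpa using this
  obtain ⟨t, rfl⟩ := (ZMod.intCast_zmod_eq_zero_iff_dvd m n).mp hm |>.imp fun _ h => h
  have hgx : x = y * S 0 ^ t := Subtype.ext (by
    rw [hxm, Subgroup.coe_mul, Subgroup.coe_zpow, hS, zpow_mul, zpow_natCast])
  have hx0 : ψ y = 1 := by
    have := hy 0
    have e : MulAut.conjNormal (a 0 ^ (0 : ℤ)) y = y := by simp
    rwa [e] at this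
  rw [hgx, map_mul, map_zpow, k4, hx0, one_zpow, one_mul]

end Pool.Agent.H34.EP
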